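import Pool.Agent.MP_67c479_co.H41.Final

namespace Pool.Agent.Results.MP_67c479_co.CountBound

open Pool.Agent.MP_67c479_co.H41

theorem result : ∃ c : ℝ, 0 < c ∧ ∃ n₀ : ℕ, ∀ n : ℕ, n₀ ≤ n → ∀ k : ℕ, 3 ≤ k →
    (Set.ncard {S : Finset (ℤ × ℤ) | S ⊆ grid n ∧ S.card = k ∧ NoThree S} : ℝ)
      ≤ ((n ^ 2).choose k : ℝ)
        * Real.exp (-(c * (k : ℝ) ^ 3 * Real.log (n : ℝ) / (n : ℝ) ^ 2)) := by
  obtain ⟨n₀, h⟩ := exists_log_ge 1000000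
  refine ⟨1 / 655360, by norm_num, n₀, fun n hn k hk => ?_⟩
  have e : {S : Finset (ℤ × ℤ) | S ⊆ grid n ∧ S.card = k ∧ NoThree S} = ↑(fam n k) := by
    ext S
    simp only [Set.mem_ofPred_eq, Finset.mem_coe, mem_fam]
  rw [e, Set.ncard_coe_finset]
  exact count_choose n k (h n hn) hk

end Pool.Agent.Results.MP_67c479_co.CountBound
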