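import Pool.Agent.MP_67c479_co.H41.Final

namespace Pool.Agent.Results.MP_67c479_co.SymmetricCount

open Pool.Agent.MP_67c479_co.H41

theorem result : ∃ c : ℝ, 0 < c ∧ ∃ n₀ : ℕ, ∀ n : ℕ, n₀ ≤ n →
    (Set.ncard {S : Finset (ℤ × ℤ) |
        S ⊆ grid n ∧ S.card = 2 * n ∧ NoThree S ∧ FullSym n S} : ℝ)
      ≤ (n : ℝ) ^ ((1 / 4 - c) * (n : ℝ)) := by
  classical
  obtain ⟨n₀, h⟩ := exists_log_ge 1000000000
  refine ⟨1 / 41943040, by norm_num, n₀, fun n hn => ?_⟩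
  have e : {S : Finset (ℤ × ℤ) | S ⊆ grid n ∧ S.card = 2 * n ∧ NoThree S ∧ FullSym n S}
      = ↑((fam n (2 * n)).filter (FullSym n)) := by
    ext S
    simp only [Set.mem_ofPred_eq, Finset.mem_coe, Finset.mem_filter, mem_fam, and_assoc]
  rw [e, Set.ncard_coe_finset]
  refine count_sym n (h n hn) _ fun S hS => ?_
  simpa only [Finset.mem_filter, mem_fam, and_assoc] using hS

end Pool.Agent.Results.MP_67c479_co.SymmetricCount
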